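import Pool.Agent.N162.GQ.Stm
import Pool.Agent.N221.SX.SEC
import Pool.Agent.TH466.QG.Low

/-! Project GQ, leaf GON (helper78): curves of large gonality. -/

set_option autoImplicit false
set_option linter.overlappingInstances false
set_option linter.unusedSectionVars false

open FF IntermediateField Module

namespace Pool.Agent.N78.GQ

open Pool.Agent.N145.SX Pool.Agent.N145.PC
open Pool.Agent.W602.GT (Divisorial RegAt DerReg DerLog LogAt)
open Pool.Agent.Y184.NT (trForm)
open Pool.Agent.W603.LV (Ge vo)

theorem gon_ : Pool.Agent.N162.GQ.StGON := by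
  intro F _ _ _ g hg B z hz Ω _ _ _ A hA c hrel
  have hx : Transcendental ℂ (z 0) := hz.1.transcendental 0
  obtain ⟨D, hD⟩ := Pool.Agent.N145.PC.exists_D hx
  refine Pool.Agent.N145.PC.sep_of_gonality hx hD hg A hA c fun f hf => hrel f ?_
  intro P _
  have key : ∀ E : Derivation ℂ F F, DerReg P E → P.Reg (E (z 0) * f) := by
    intro E hE
    have h := Pool.Agent.N221.SX.ent_reg (K := F) (C := F) hx hD (B := ∅)
      (Pool.Agent.N145.PL.HH_le_HL D ∅ hf) P (fun p hp => absurd hp (Set.notMem_empty p)) hE
    have h' : Ge P 0 (f * E (z 0)) := h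
    rw [mul_comm]
    exact h'
  have hreg : RegAt P (trForm z f) := by
    intro D' hD'
    unfold trForm
    rw [Matrix.det_fin_one, Matrix.of_apply]
    exact key (D' 0) (hD' 0)
  refine ⟨fun D' hD' => hreg D' fun i => Pool.Agent.TH466.QG.derReg_of_log (hD' i), fun _ => hreg⟩

end Pool.Agent.N78.GQ
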